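import Pool.Agent.Lib.MP_28303a_al.NK.H78.Noeth
import Pool.Agent.Lib.MP_28303a_al.NK.Iface2

/-! # Laurent polynomials over a regular ring form a regular ring -/

set_option autoImplicit false

namespace Pool.Agent.NegK.H78

open LaurentPolynomial

universe u

section

variable {R : Type u} [Ring R] {M : Type u} [AddCommGroup M] [Module R M]
  [Module (LaurentPolynomial R) M] [IsScalarTower R (LaurentPolynomial R) M]

/-- Multiplication by `t ^ k` is `R`-linear. -/
noncomputable def tmul (R : Type u) [Ring R] (M : Type u) [AddCommGroup M] [Module R M]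
    [Module (LaurentPolynomial R) M] [IsScalarTower R (LaurentPolynomial R) M] (k : ℤ) :
    M →ₗ[R] M where
  toFun x := (T k : LaurentPolynomial R) • x
  map_add' := smul_add _
  map_smul' r x := by
    rw [RingHom.id_apply, ← C_smul' (R := R) r, ← C_smul' (R := R) r, ← mul_smul, ← mul_smul,
      LaurentPolynomial.T_mul]

theorem tmul_apply (k : ℤ) (x : M) : tmul R M k x = (T k : LaurentPolynomial R) • x := rfl

/-- `M₀ ∩ t⁻¹ M₀`. -/
noncomputable def one (M0 : Submodule R M) : Submodule R M := M0 ⊓ M0.comap (tmul R M 1)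

theorem one_mem {M0 : Submodule R M} (x : one M0) : (x : M) ∈ M0 := x.2.1

theorem one_mem' {M0 : Submodule R M} (x : one M0) :
    (T 1 : LaurentPolynomial R) • (x : M) ∈ M0 := x.2.2

/-- `x ↦ t ⊗ x - 1 ⊗ t x`. -/
noncomputable def dl0 (M0 : Submodule R M) : one M0 →ₗ[R] Ind M0 where
  toFun x := sg 1 ⟨x, one_mem x⟩ - sg 0 ⟨(T 1 : LaurentPolynomial R) • (x : M), one_mem' x⟩
  map_add' x y := by
    have h1 : (⟨((x + y : one M0) : M), one_mem (x + y)⟩ : M0) =
      ⟨x, one_mem x⟩ + ⟨y, one_mem y⟩ := rfl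
    have h2 : (⟨(T 1 : LaurentPolynomial R) • ((x + y : one M0) : M), one_mem' (x + y)⟩ : M0) =
      ⟨_, one_mem' x⟩ + ⟨_, one_mem' y⟩ := Subtype.ext (smul_add _ _ _)
    rw [h1, h2, sg_add, sg_add]
    abel
  map_smul' r x := by
    have h1 : (⟨((r • x : one M0) : M), one_mem (r • x)⟩ : M0) = r • ⟨x, one_mem x⟩ := rfl
    have h2 : (⟨(T 1 : LaurentPolynomial R) • ((r • x : one M0) : M), one_mem' (r • x)⟩ : M0) =
      r • ⟨_, one_mem' x⟩ := Subtype.ext ((tmul R M 1).map_smul r x)
    rw [h1, h2, ← smul_sg, ← smul_sg, RingHom.id_apply, smul_sub]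

/-- The map `R[t, t⁻¹] ⊗ M₁ → R[t, t⁻¹] ⊗ M₀`. -/
noncomputable def dl (M0 : Submodule R M) : Ind (one M0) →ₗ[LaurentPolynomial R] Ind M0 :=
  lift (dl0 M0)

/-- The map `R[t, t⁻¹] ⊗ M₀ → M`. -/
noncomputable def pr (M0 : Submodule R M) : Ind M0 →ₗ[LaurentPolynomial R] M :=
  lift M0.subtype

theorem pr_sg (M0 : Submodule R M) (i : ℤ) (x : M0) :
    pr M0 (sg i x) = (T i : LaurentPolynomial R) • (x : M) := lift_sg _ _ _

theorem pr_sg_zero (M0 : Submodule R M) (x : M0) : pr M0 (sg 0 x) = x := lift_sg_zero _ _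

theorem pr_dl (M0 : Submodule R M) (x : Ind (one M0)) : pr M0 (dl M0 x) = 0 := by
  have h : (pr M0) ∘ₗ (dl M0) = 0 := by
    refine hom_ext fun n => ?_
    rw [LinearMap.comp_apply]
    unfold dl
    rw [lift_sg_zero]
    show pr M0 (sg 1 _ - sg 0 _) = 0
    rw [map_sub, pr_sg, pr_sg_zero, sub_self]
  exact LinearMap.congr_fun h x

theorem dl_mem (M0 : Submodule R M) {x : M} (h0 : x ∈ M0)
    (h1 : (T 1 : LaurentPolynomial R) • x ∈ M0) :
    (T 1 : LaurentPolynomial R) • sg 0 (⟨x, h0⟩ : M0) - sg 0 (⟨_, h1⟩ : M0) ∈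
      LinearMap.range (dl M0) := by
  refine ⟨sg 0 ⟨x, h0, h1⟩, ?_⟩
  unfold dl
  rw [lift_sg_zero, T_smul_sg, add_zero]
  rfl

theorem co_dl (M0 : Submodule R M) (i : ℤ) (x : Ind (one M0)) :
    ((co i (dl M0 x) : M0) : M) =
      ((co (i - 1) x : one M0) : M) - (T 1 : LaurentPolynomial R) • ((co i x : one M0) : M) := by
  induction x using Ind.induction with
  | h0 =>
    rw [map_zero, map_zero, map_zero, map_zero]
    show (0 : M) = 0 - (T 1 : LaurentPolynomial R) • (0 : M)
    rw [smul_zero, sub_zero]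
  | hadd x y hx hy =>
    rw [map_add, map_add, Submodule.coe_add, hx, hy, map_add, map_add, Submodule.coe_add,
      Submodule.coe_add, smul_add]
    abel
  | hsg j n =>
    unfold dl
    rw [lift_sg]
    show ((co i ((T j : LaurentPolynomial R) • (sg 1 ⟨n, one_mem n⟩ -
      sg 0 ⟨(T 1 : LaurentPolynomial R) • (n : M), one_mem' n⟩)) : M0) : M) = _
    rw [smul_sub, T_smul_sg, T_smul_sg, map_sub, co_sg, co_sg, co_sg, co_sg, add_zero]
    by_cases h1 : j = i
    · have h2 : ¬ j + 1 = i := by omega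
      have h3 : ¬ j = i - 1 := by omega
      rw [if_neg h2, if_pos h1, if_neg h3, if_pos h1]
      rfl
    · by_cases h2 : j + 1 = i
      · have h3 : j = i - 1 := by omega
        rw [if_pos h2, if_neg h1, if_pos h3, if_neg h1]
        show (n : M) - 0 = n - (T 1 : LaurentPolynomial R) • (0 : M)
        rw [smul_zero]
      · have h3 : ¬ j = i - 1 := by omega
        rw [if_neg h2, if_neg h1, if_neg h3, if_neg h1]
        show (0 : M) - 0 = 0 - (T 1 : LaurentPolynomial R) • (0 : M)
        rw [smul_zero]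

omit [Module R M] in
theorem exists_bound (x : Ind M) : ∃ B : ℤ, ∀ i, B < i → co i x = 0 := by
  induction x using Ind.induction with
  | h0 => exact ⟨0, fun i _ => map_zero _⟩
  | hadd x y hx hy =>
    obtain ⟨a, ha⟩ := hx
    obtain ⟨b, hb⟩ := hy
    refine ⟨max a b, fun i hi => ?_⟩
    rw [map_add, ha i (lt_of_le_of_lt (le_max_left _ _) hi),
      hb i (lt_of_le_of_lt (le_max_right _ _) hi), add_zero]
  | hsg j n =>
    refine ⟨j, fun i hi => ?_⟩
    rw [co_sg, if_neg hi.ne]

theorem dl_injective (M0 : Submodule R M) : Function.Injective (dl M0) := by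
  rw [injective_iff_map_eq_zero]
  intro x hx
  obtain ⟨B, hB⟩ := exists_bound x
  have h1 : ∀ i, co i x = 0 → co (i - 1) x = 0 := by
    intro i hi
    have h2 := co_dl M0 i x
    rw [hx, hi, map_zero] at h2
    refine Subtype.ext ?_
    have h3 : (0 : M) = ((co (i - 1) x : one M0) : M) - (T 1 : LaurentPolynomial R) • (0 : M) :=
      h2
    rw [smul_zero, sub_zero] at h3
    exact h3.symm
  have h2 : ∀ n : ℕ, co (B + 1 - n) x = 0 := by
    intro n
    induction n with
    | zero => exact hB _ (by simp)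
    | succ n ih =>
      have h3 := h1 _ ih
      rwa [show B + 1 - (n : ℤ) - 1 = B + 1 - ((n + 1 : ℕ) : ℤ) by push_cast; ring] at h3
  refine Ind.ext fun i => ?_
  rw [map_zero]
  rcases lt_or_ge B i with h | h
  · exact hB i h
  · have h3 := h2 (B + 1 - i).toNat
    rwa [Int.toNat_of_nonneg (by omega), sub_sub_cancel] at h3

/-- The pairs `(y, x)` such that `y ≡ 1 ⊗ x` modulo the image of `dl`. -/
def rel (M0 : Submodule R M) : Submodule R (Ind M0 × M) where
  carrier := {p | ∃ h : p.2 ∈ M0, p.1 - sg 0 ⟨p.2, h⟩ ∈ LinearMap.range (dl M0)}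
  zero_mem' := ⟨zero_mem _, by
    show (0 : Ind M0) - sg 0 (0 : M0) ∈ _
    rw [sg_zero, sub_zero]
    exact zero_mem _⟩
  add_mem' := by
    rintro ⟨a, x⟩ ⟨b, y⟩ ⟨hx, ha⟩ ⟨hy, hb⟩
    refine ⟨add_mem hx hy, ?_⟩
    show a + b - sg 0 ((⟨x, hx⟩ : M0) + ⟨y, hy⟩) ∈ _
    rw [sg_add, add_sub_add_comm]
    exact add_mem ha hb
  smul_mem' := by
    rintro r ⟨a, x⟩ ⟨hx, ha⟩
    refine ⟨Submodule.smul_mem _ r hx, ?_⟩
    show r • a - sg 0 (r • (⟨x, hx⟩ : M0)) ∈ _
    rw [← smul_sg, ← smul_sub, ← C_smul]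
    exact Submodule.smul_mem _ _ ha

theorem rel_zero {M0 : Submodule R M} {y : Ind M0} (h : (y, (0 : M)) ∈ rel M0) :
    y ∈ LinearMap.range (dl M0) := by
  obtain ⟨h1, h2⟩ := h
  have h3 : (sg 0 (⟨(0 : M), h1⟩ : M0)) = 0 := sg_zero 0
  have h4 : y - sg 0 (⟨(0 : M), h1⟩ : M0) ∈ LinearMap.range (dl M0) := h2
  rwa [h3, sub_zero] at h4

theorem rel_up {M0 : Submodule R M} {y : Ind M0} {x : M} (h : (y, x) ∈ rel M0)
    (h1 : (T 1 : LaurentPolynomial R) • x ∈ M0) :
    ((T 1 : LaurentPolynomial R) • y, (T 1 : LaurentPolynomial R) • x) ∈ rel M0 := by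
  obtain ⟨hx, hy⟩ := h
  refine ⟨h1, ?_⟩
  have h2 := add_mem (Submodule.smul_mem _ (T 1 : LaurentPolynomial R) hy) (dl_mem M0 hx h1)
  rw [smul_sub] at h2
  simpa using h2

theorem rel_down {M0 : Submodule R M} {y : Ind M0} {x : M} (hx : x ∈ M0)
    (h : ((T 1 : LaurentPolynomial R) • y, (T 1 : LaurentPolynomial R) • x) ∈ rel M0) :
    (y, x) ∈ rel M0 := by
  obtain ⟨h1, hy⟩ := h
  refine ⟨hx, ?_⟩
  have h2 := sub_mem hy (dl_mem M0 hx h1)
  have h3 : (T 1 : LaurentPolynomial R) • (y - sg 0 (⟨x, hx⟩ : M0)) ∈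
      LinearMap.range (dl M0) := by
    rw [smul_sub]
    simpa using h2
  have h4 := Submodule.smul_mem _ (T (-1) : LaurentPolynomial R) h3
  rwa [← mul_smul, ← T_add, neg_add_cancel, T_zero, one_smul] at h4

theorem exists_model (hR : IsNoetherian R R) (hM : Module.Finite (LaurentPolynomial R) M) :
    ∃ M0 : Submodule R M, M0.FG ∧ Function.Surjective (pr M0) ∧
      LinearMap.range (dl M0) = LinearMap.ker (pr M0) := by
  classical
  have := laurent_noeth hR
  obtain ⟨m, e, he⟩ := Module.Finite.exists_fin (R := LaurentPolynomial R) (M := M)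
  let q : (Fin m → LaurentPolynomial R) →ₗ[LaurentPolynomial R] M :=
    Fintype.linearCombination (LaurentPolynomial R) e
  obtain ⟨S, hS⟩ := IsNoetherian.noetherian (LinearMap.ker q)
  obtain ⟨N, hN⟩ : ∃ N : ℕ, ∀ s ∈ S, ∀ j, ∀ i ∈ (s j).coeff.support, |i| ≤ (N : ℤ) := by
    refine ⟨S.sup fun s => Finset.univ.sup fun j => (s j).coeff.support.sup Int.natAbs,
      fun s hs j i hi => ?_⟩
    rw [Int.abs_eq_natAbs]
    have h1 : Int.natAbs i ≤ (s j).coeff.support.sup Int.natAbs :=
      Finset.le_sup (f := Int.natAbs) hi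
    have h2 : (s j).coeff.support.sup Int.natAbs ≤
        Finset.univ.sup fun j => (s j).coeff.support.sup Int.natAbs :=
      Finset.le_sup (f := fun j => (s j).coeff.support.sup Int.natAbs) (Finset.mem_univ j)
    have h3 : (Finset.univ.sup fun j => (s j).coeff.support.sup Int.natAbs) ≤
        S.sup fun s => Finset.univ.sup fun j => (s j).coeff.support.sup Int.natAbs :=
      Finset.le_sup (f := fun s : Fin m → LaurentPolynomial R =>
        Finset.univ.sup fun j => (s j).coeff.support.sup Int.natAbs) hs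
    exact_mod_cast h1.trans (h2.trans h3)
  let G : Set M := (fun p : ℤ × Fin m => (T p.1 : LaurentPolynomial R) • e p.2) ''
    (Set.Icc (-(N : ℤ)) N ×ˢ Set.univ)
  have hG : G.Finite := ((Set.finite_Icc _ _).prod Set.finite_univ).image _
  let M0 : Submodule R M := Submodule.span R G
  have hmem : ∀ i : ℤ, |i| ≤ N → ∀ j, (T i : LaurentPolynomial R) • e j ∈ M0 := by
    intro i hi j
    refine Submodule.subset_span ⟨(i, j), ⟨?_, Set.mem_univ _⟩, rfl⟩
    exact abs_le.1 hi
  have hmem0 : ∀ j, e j ∈ M0 := by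
    intro j
    have h1 := hmem 0 (by simp) j
    rwa [T_zero, one_smul] at h1
  let ρ : (Fin m → LaurentPolynomial R) →ₗ[LaurentPolynomial R] Ind M0 :=
    Fintype.linearCombination (LaurentPolynomial R) (fun j => sg 0 ⟨e j, hmem0 j⟩)
  have hρ : ∀ v, ρ v = ∑ j, v j • sg 0 (⟨e j, hmem0 j⟩ : M0) := fun v =>
    Fintype.linearCombination_apply _ _ _
  have hq : ∀ v, q v = ∑ j, v j • e j := fun v => Fintype.linearCombination_apply _ _ _
  -- the telescope
  have base : ∀ j, ((sg 0 ⟨e j, hmem0 j⟩ : Ind M0), e j) ∈ rel M0 := by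
    intro j
    refine ⟨hmem0 j, ?_⟩
    show sg 0 (⟨e j, hmem0 j⟩ : M0) - sg 0 (⟨e j, hmem0 j⟩ : M0) ∈ _
    rw [sub_self]
    exact zero_mem _
  have up : ∀ n : ℕ, n ≤ N → ∀ j, ((T n : LaurentPolynomial R) •
      (sg 0 ⟨e j, hmem0 j⟩ : Ind M0), (T n : LaurentPolynomial R) • e j) ∈ rel M0 := by
    intro n
    induction n with
    | zero =>
      intro _ j
      rw [Nat.cast_zero, T_zero, one_smul, one_smul]
      exact base j
    | succ n ih =>
      intro hn j
      have h1 : (T ((n + 1 : ℕ) : ℤ) : LaurentPolynomial R) = T 1 * T n := by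
        rw [← T_add]; congr 1; push_cast; ring
      have h2 := hmem ((n + 1 : ℕ) : ℤ) (by rw [Nat.abs_cast]; exact_mod_cast hn) j
      rw [h1, mul_smul] at h2 ⊢
      rw [mul_smul]
      exact rel_up (ih (by omega) j) h2
  have down : ∀ n : ℕ, n ≤ N → ∀ j, ((T (-(n : ℤ)) : LaurentPolynomial R) •
      (sg 0 ⟨e j, hmem0 j⟩ : Ind M0), (T (-(n : ℤ)) : LaurentPolynomial R) • e j) ∈ rel M0 := by
    intro n
    induction n with
    | zero =>
      intro _ j
      rw [Nat.cast_zero, neg_zero, T_zero, one_smul, one_smul]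
      exact base j
    | succ n ih =>
      intro hn j
      have h1 : (T (-(n : ℤ)) : LaurentPolynomial R) = T 1 * T (-((n + 1 : ℕ) : ℤ)) := by
        rw [← T_add]; congr 1; push_cast; ring
      have h2 := hmem (-((n + 1 : ℕ) : ℤ))
        (by rw [abs_neg, Nat.abs_cast]; exact_mod_cast hn) j
      have h3 := ih (by omega) j
      rw [h1, mul_smul, mul_smul] at h3
      exact rel_down h2 h3
  have tele : ∀ i : ℤ, |i| ≤ N → ∀ j, ((T i : LaurentPolynomial R) •
      (sg 0 ⟨e j, hmem0 j⟩ : Ind M0), (T i : LaurentPolynomial R) • e j) ∈ rel M0 := by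
    intro i hi j
    obtain ⟨n, rfl | rfl⟩ := Int.eq_nat_or_neg i
    · exact up n (by rw [Nat.abs_cast] at hi; exact_mod_cast hi) j
    · exact down n (by rw [abs_neg, Nat.abs_cast] at hi; exact_mod_cast hi) j
  refine ⟨M0, Submodule.fg_span hG, ?_, ?_⟩
  · rw [← LinearMap.range_eq_top, eq_top_iff, ← he, Submodule.span_le]
    rintro _ ⟨j, rfl⟩
    exact ⟨sg 0 ⟨e j, hmem0 j⟩, pr_sg_zero _ _⟩
  · have h1 : ∀ y : Ind M0, ∃ v, y - ρ v ∈ LinearMap.range (dl M0) := by
      intro y
      induction y using Ind.induction with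
      | h0 => exact ⟨0, by rw [map_zero, sub_zero]; exact zero_mem _⟩
      | hadd x y hx hy =>
        obtain ⟨v, hv⟩ := hx
        obtain ⟨w, hw⟩ := hy
        exact ⟨v + w, by rw [map_add, add_sub_add_comm]; exact add_mem hv hw⟩
      | hsg i n =>
        suffices h : ∃ v, sg 0 n - ρ v ∈ LinearMap.range (dl M0) by
          obtain ⟨v, hv⟩ := h
          refine ⟨(T i : LaurentPolynomial R) • v, ?_⟩
          rw [sg_eq_smul (R := R), map_smul, ← smul_sub]
          exact Submodule.smul_mem _ _ hv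
        obtain ⟨x, hx⟩ := n
        refine Submodule.span_induction (p := fun x hx => ∃ v, sg 0 (⟨x, hx⟩ : M0) - ρ v ∈
          LinearMap.range (dl M0)) ?_ ?_ ?_ ?_ hx
        · rintro _ ⟨⟨i, j⟩, ⟨hi, -⟩, rfl⟩
          refine ⟨Pi.single j (T i), ?_⟩
          have hi' : |i| ≤ (N : ℤ) := abs_le.2 hi
          obtain ⟨h3, h4⟩ := tele i hi' j
          have h5 : ρ (Pi.single j (T i)) =
              (T i : LaurentPolynomial R) • sg 0 (⟨e j, hmem0 j⟩ : M0) := by
            rw [hρ, Finset.sum_eq_single j]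
            · rw [Pi.single_eq_same]
            · intro k _ hk
              rw [Pi.single_eq_of_ne hk, zero_smul]
            · intro h; exact absurd (Finset.mem_univ j) h
          rw [h5]
          have h6 := neg_mem h4
          rw [neg_sub] at h6
          exact h6
        · refine ⟨0, ?_⟩
          rw [map_zero, sub_zero]
          have h3 : (sg 0 (⟨(0 : M), zero_mem M0⟩ : M0)) = 0 := sg_zero 0
          rw [h3]
          exact zero_mem _
        · rintro x y hx hy ⟨v, hv⟩ ⟨w, hw⟩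
          refine ⟨v + w, ?_⟩
          show sg 0 ((⟨x, hx⟩ : M0) + ⟨y, hy⟩) - ρ (v + w) ∈ _
          rw [sg_add, map_add, add_sub_add_comm]
          exact add_mem hv hw
        · rintro r x hx ⟨v, hv⟩
          refine ⟨(C r : LaurentPolynomial R) • v, ?_⟩
          show sg 0 (r • (⟨x, hx⟩ : M0)) - ρ ((C r : LaurentPolynomial R) • v) ∈ _
          rw [← smul_sg, map_smul, ← C_smul, ← smul_sub]
          exact Submodule.smul_mem _ _ hv
    have h2 : LinearMap.ker q ≤ (LinearMap.range (dl M0)).comap ρ := by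
      rw [← hS, Submodule.span_le]
      intro s hs
      show ρ s ∈ LinearMap.range (dl M0)
      have hs0 : q s = 0 := by
        have h3 : s ∈ LinearMap.ker q := by
          rw [← hS]; exact Submodule.subset_span hs
        exact h3
      have h3 : ∀ j, ((s j) • (sg 0 ⟨e j, hmem0 j⟩ : Ind M0), (s j) • e j) ∈ rel M0 := by
        intro j
        have h4 : s j = ∑ i ∈ (s j).coeff.support,
            (AddMonoidAlgebra.single i ((s j).coeff i) : LaurentPolynomial R) :=
          (AddMonoidAlgebra.sum_coeff_single (s j)).symm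
        have h5 : ((s j) • (sg 0 ⟨e j, hmem0 j⟩ : Ind M0), (s j) • e j) =
            ∑ i ∈ (s j).coeff.support, (s j).coeff i • (((T i : LaurentPolynomial R) •
              (sg 0 ⟨e j, hmem0 j⟩ : Ind M0)), (T i : LaurentPolynomial R) • e j) := by
          refine Prod.ext ?_ ?_
          · rw [Prod.fst_sum]
            show (s j) • (sg 0 ⟨e j, hmem0 j⟩ : Ind M0) = _
            conv_lhs => rw [h4]
            rw [Finset.sum_smul]
            refine Finset.sum_congr rfl fun i _ => ?_
            rw [LaurentPolynomial.single_eq_C_mul_T, mul_smul, C_smul]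
            rfl
          · rw [Prod.snd_sum]
            show (s j) • e j = _
            conv_lhs => rw [h4]
            rw [Finset.sum_smul]
            refine Finset.sum_congr rfl fun i _ => ?_
            rw [LaurentPolynomial.single_eq_C_mul_T, mul_smul, C_smul']
            rfl
        rw [h5]
        exact Submodule.sum_mem _ fun i hi =>
          Submodule.smul_mem _ _ (tele i (hN s hs j i hi) j)
      have h6 : ((ρ s), (0 : M)) ∈ rel M0 := by
        have h7 : ((ρ s), (0 : M)) =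
            ∑ j, ((s j) • (sg 0 ⟨e j, hmem0 j⟩ : Ind M0), (s j) • e j) := by
          refine Prod.ext ?_ ?_
          · rw [Prod.fst_sum, hρ]
          · rw [Prod.snd_sum]
            exact hs0.symm.trans (hq s)
        rw [h7]
        exact Submodule.sum_mem _ fun j _ => h3 j
      exact rel_zero h6
    have hpρ : ∀ v, pr M0 (ρ v) = q v := by
      intro v
      rw [hρ, hq, map_sum]
      refine Finset.sum_congr rfl fun j _ => ?_
      rw [map_smul, pr_sg_zero]
    refine le_antisymm ?_ ?_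
    · rintro _ ⟨x, rfl⟩
      exact pr_dl M0 x
    · intro y hy
      obtain ⟨v, hv⟩ := h1 y
      have h3 : pr M0 (y - ρ v) = 0 := by
        obtain ⟨z, hz⟩ := hv
        rw [← hz]
        exact pr_dl M0 z
      rw [LinearMap.mem_ker] at hy
      rw [map_sub, hy, zero_sub, neg_eq_zero, hpρ] at h3
      have h4 : ρ v ∈ LinearMap.range (dl M0) := h2 h3
      have h5 := add_mem hv h4
      rwa [sub_add_cancel] at h5

end

/-- Laurent polynomials over a regular ring form a regular ring. -/
theorem lreg (hext : ExtStatement.{u}) : LregStatement.{u} := by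
  intro R _ hR
  refine ⟨laurent_noeth hR.1, fun M _ _ hM => ?_⟩
  let _ : Module R M := Module.compHom M (C : R →+* LaurentPolynomial R)
  have : IsScalarTower R (LaurentPolynomial R) M := ⟨fun r a x => by
    rw [LaurentPolynomial.smul_eq_C_mul, mul_smul]
    rfl⟩
  have := hR.1
  obtain ⟨M0, h1, h2, h3⟩ := exists_model (R := R) hR.1 hM
  have : IsNoetherian R M0 := isNoetherian_of_fg_of_noetherian M0 h1
  have h4 : ∃ n, HasFPRes (LaurentPolynomial R) n (Ind M0) := by
    obtain ⟨n, hn⟩ := hR.2 M0 inferInstance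
    exact ⟨n, ind_res n _ hn⟩
  have h5 : ∃ n, HasFPRes (LaurentPolynomial R) n (Ind (one M0)) := by
    have : IsNoetherian R (one M0) := isNoetherian_of_le inf_le_left
    obtain ⟨n, hn⟩ := hR.2 (one M0) inferInstance
    exact ⟨n, ind_res n _ hn⟩
  exact hext (LaurentPolynomial R) (Ind (one M0)) (Ind M0) M (dl M0) (pr M0)
    (dl_injective M0) h2 h3 h5 h4

end Pool.Agent.NegK.H78
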