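import Pool.Agent.Lib.MP_28303a_al.NK.FPRes

/-! # Induced modules over Laurent polynomials

For a module `N` over a (noncommutative) ring `R` the module `R[t, t⁻¹] ⊗ N` over
`R[t, t⁻¹]`, realised as the finitely supported functions `ℤ →₀ N`.  Induction is exact and
preserves finitely generated projective modules, so it preserves finite resolutions. -/

set_option autoImplicit false

namespace Pool.Agent.NegK.H78

open LaurentPolynomial

universe u

/-- The induced module `R[t, t⁻¹] ⊗ N`. -/
def Ind (N : Type u) [AddCommGroup N] : Type u := ℤ →₀ N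

section

variable {R : Type u} [Ring R] {N : Type u} [AddCommGroup N] [Module R N]

noncomputable instance : AddCommGroup (Ind N) := inferInstanceAs (AddCommGroup (ℤ →₀ N))

noncomputable instance : Module R (Ind N) := inferInstanceAs (Module R (ℤ →₀ N))

/-- The element `t ^ i ⊗ n`. -/
noncomputable def sg (i : ℤ) (n : N) : Ind N := Finsupp.single i n

theorem sg_add (i : ℤ) (m n : N) : sg i (m + n) = sg i m + sg i n := Finsupp.single_add _ _ _

theorem sg_zero (i : ℤ) : sg i (0 : N) = 0 := Finsupp.single_zero _

theorem smul_sg (r : R) (i : ℤ) (n : N) : r • sg i n = sg i (r • n) := Finsupp.smul_single _ _ _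

@[elab_as_elim]
theorem Ind.induction {P : Ind N → Prop} (x : Ind N) (h0 : P 0)
    (hadd : ∀ x y, P x → P y → P (x + y)) (hsg : ∀ i n, P (sg i n)) : P x :=
  Finsupp.induction_linear (motive := P) x h0 (fun x y => hadd x y) (fun i n => hsg i n)

theorem Ind.addHom_ext {Y : Type*} [AddCommGroup Y] {f g : Ind N →+ Y}
    (h : ∀ i n, f (sg i n) = g (sg i n)) : f = g := by
  refine AddMonoidHom.ext fun x => ?_
  induction x using Ind.induction with
  | h0 => rw [map_zero, map_zero]
  | hadd x y hx hy => rw [map_add, map_add, hx, hy]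
  | hsg i n => exact h i n

/-- The shift by `k`. -/
noncomputable def shiftAdd (N : Type u) [AddCommGroup N] (k : ℤ) : Ind N →+ Ind N :=
  (Finsupp.mapDomain.addMonoidHom (fun j : ℤ => k + j) : (ℤ →₀ N) →+ (ℤ →₀ N))

theorem shiftAdd_sg (k j : ℤ) (n : N) : shiftAdd N k (sg j n) = sg (k + j) n := by
  show Finsupp.mapDomain _ (Finsupp.single j n) = Finsupp.single _ n
  rw [Finsupp.mapDomain_single]

/-- The shift. -/
noncomputable def shift (N : Type u) [AddCommGroup N] :
    Multiplicative ℤ →* AddMonoid.End (Ind N) where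
  toFun i := shiftAdd N i.toAdd
  map_one' := by
    refine Ind.addHom_ext fun i n => ?_
    rw [shiftAdd_sg, toAdd_one, zero_add]
    rfl
  map_mul' a b := by
    refine Ind.addHom_ext fun i n => ?_
    rw [shiftAdd_sg, toAdd_mul]
    show _ = shiftAdd N a.toAdd (shiftAdd N b.toAdd (sg i n))
    rw [shiftAdd_sg, shiftAdd_sg, add_assoc]

theorem shift_sg (i : Multiplicative ℤ) (j : ℤ) (n : N) :
    shift N i (sg j n) = sg (i.toAdd + j) n := shiftAdd_sg _ _ _

variable (R N) in
/-- The action of `R[t, t⁻¹]`. -/
noncomputable def actHom : LaurentPolynomial R →+* AddMonoid.End (Ind N) :=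
  AddMonoidAlgebra.liftNCRingHom (Module.toAddMonoidEnd R (Ind N)) (shift N) (by
    intro r i
    refine Ind.addHom_ext fun j n => ?_
    show r • shift N i (sg j n) = shift N i (r • sg j n)
    rw [shift_sg, smul_sg, smul_sg, shift_sg])

noncomputable instance : Module (LaurentPolynomial R) (Ind N) :=
  Module.compHom (Ind N) (actHom R N)

theorem single_smul_sg (i j : ℤ) (r : R) (n : N) :
    (AddMonoidAlgebra.single i r : LaurentPolynomial R) • sg j n = sg (i + j) (r • n) := by
  show actHom R N (AddMonoidAlgebra.single i r) (sg j n) = _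
  unfold actHom
  rw [AddMonoidAlgebra.liftNCRingHom_single]
  show r • shift N (Multiplicative.ofAdd i) (sg j n) = _
  rw [shift_sg, smul_sg, toAdd_ofAdd]

theorem T_smul_sg (i j : ℤ) (n : N) : (T i : LaurentPolynomial R) • sg j n = sg (i + j) n := by
  show (AddMonoidAlgebra.single i 1 : LaurentPolynomial R) • sg j n = _
  rw [single_smul_sg, one_smul]

theorem C_smul (r : R) (x : Ind N) : (C r : LaurentPolynomial R) • x = r • x := by
  induction x using Ind.induction with
  | h0 => rw [smul_zero, smul_zero]
  | hadd x y hx hy => rw [smul_add, smul_add, hx, hy]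
  | hsg j n =>
    show (AddMonoidAlgebra.single 0 r : LaurentPolynomial R) • sg j n = _
    rw [single_smul_sg, smul_sg, zero_add]

instance : IsScalarTower R (LaurentPolynomial R) (Ind N) where
  smul_assoc r a x := by rw [LaurentPolynomial.smul_eq_C_mul, mul_smul, C_smul]

theorem sg_eq_smul (i : ℤ) (n : N) : sg i n = (T i : LaurentPolynomial R) • sg 0 n := by
  rw [T_smul_sg, add_zero]

end

section Lift

variable {R : Type u} [Ring R] {N : Type u} [AddCommGroup N] [Module R N]
  {X : Type u} [AddCommGroup X] [Module R X] [Module (LaurentPolynomial R) X]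
  [IsScalarTower R (LaurentPolynomial R) X]

theorem C_smul' (r : R) (x : X) : (C r : LaurentPolynomial R) • x = r • x := by
  have h := smul_assoc r (1 : LaurentPolynomial R) x
  rwa [LaurentPolynomial.smul_eq_C_mul, mul_one, one_smul] at h

/-- Additive version of `lift`. -/
noncomputable def liftAdd (φ : N →ₗ[R] X) : Ind N →+ X :=
  (Finsupp.liftAddHom (fun i : ℤ =>
    (DistribSMul.toAddMonoidHom X (T i : LaurentPolynomial R)).comp φ.toAddMonoidHom) :
      (ℤ →₀ N) →+ X)

omit [IsScalarTower R (LaurentPolynomial R) X] in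
theorem liftAdd_sg (φ : N →ₗ[R] X) (i : ℤ) (n : N) :
    liftAdd φ (sg i n) = (T i : LaurentPolynomial R) • φ n := by
  show Finsupp.liftAddHom _ (Finsupp.single i n) = _
  rw [Finsupp.liftAddHom_apply_single]
  rfl

theorem liftAdd_smul (φ : N →ₗ[R] X) (a : LaurentPolynomial R) (x : Ind N) :
    liftAdd φ (a • x) = a • liftAdd φ x := by
  induction a using LaurentPolynomial.induction_on' with
  | add a b ha hb => rw [add_smul, map_add, ha, hb, add_smul]
  | C_mul_T i r =>
    induction x using Ind.induction with
    | h0 => rw [smul_zero, map_zero, smul_zero]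
    | hadd x y hx hy => rw [smul_add, map_add, hx, hy, map_add, smul_add]
    | hsg j n =>
      rw [← LaurentPolynomial.single_eq_C_mul_T, single_smul_sg, liftAdd_sg, liftAdd_sg,
        map_smul, LaurentPolynomial.single_eq_C_mul_T, ← C_smul' (R := R) r, ← mul_smul,
        ← mul_smul, LaurentPolynomial.T_mul, T_add, mul_assoc]

/-- Linear maps out of an induced module. -/
noncomputable def lift (φ : N →ₗ[R] X) : Ind N →ₗ[LaurentPolynomial R] X where
  toFun := liftAdd φ
  map_add' := map_add (liftAdd φ)
  map_smul' := liftAdd_smul φ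

theorem lift_sg (φ : N →ₗ[R] X) (i : ℤ) (n : N) :
    lift φ (sg i n) = (T i : LaurentPolynomial R) • φ n := liftAdd_sg φ i n

theorem lift_sg_zero (φ : N →ₗ[R] X) (n : N) : lift φ (sg 0 n) = φ n := by
  rw [lift_sg, T_zero, one_smul]

omit [Module R X] [IsScalarTower R (LaurentPolynomial R) X] in
theorem hom_ext {f g : Ind N →ₗ[LaurentPolynomial R] X} (h : ∀ n, f (sg 0 n) = g (sg 0 n)) :
    f = g := by
  refine LinearMap.ext fun x => ?_
  induction x using Ind.induction with
  | h0 => rw [map_zero, map_zero]
  | hadd x y hx hy => rw [map_add, map_add, hx, hy]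
  | hsg j n => rw [sg_eq_smul (R := R), map_smul, map_smul, h]

end Lift

section Exact

variable {R : Type u} [Ring R] {N P : Type u} [AddCommGroup N] [Module R N] [AddCommGroup P]
  [Module R P]

/-- `n ↦ 1 ⊗ n`. -/
noncomputable def sgHom (R : Type u) [Ring R] (N : Type u) [AddCommGroup N] [Module R N] :
    N →ₗ[R] Ind N where
  toFun := sg 0
  map_add' := sg_add 0
  map_smul' r n := (smul_sg r 0 n).symm

/-- Functoriality. -/
noncomputable def imap (f : P →ₗ[R] N) : Ind P →ₗ[LaurentPolynomial R] Ind N :=
  lift (sgHom R N ∘ₗ f)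

theorem imap_sg (f : P →ₗ[R] N) (i : ℤ) (p : P) : imap f (sg i p) = sg i (f p) := by
  unfold imap
  rw [lift_sg]
  show (T i : LaurentPolynomial R) • sg 0 (f p) = _
  rw [T_smul_sg, add_zero]

/-- The coefficients. -/
noncomputable def co (i : ℤ) : Ind N →+ N := Finsupp.applyAddHom i

theorem co_sg (i j : ℤ) (n : N) : co i (sg j n) = if j = i then n else 0 :=
  Finsupp.single_apply

theorem Ind.ext {x y : Ind N} (h : ∀ i, co i x = co i y) : x = y := Finsupp.ext h

theorem co_imap (f : P →ₗ[R] N) (i : ℤ) (x : Ind P) : co i (imap f x) = f (co i x) := by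
  induction x using Ind.induction with
  | h0 => rw [map_zero, map_zero, map_zero, map_zero]
  | hadd x y hx hy => rw [map_add, map_add, hx, hy, map_add, map_add]
  | hsg j n =>
    rw [imap_sg, co_sg, co_sg]
    split_ifs
    · rfl
    · rw [map_zero]

theorem imap_surjective (f : P →ₗ[R] N) (hf : Function.Surjective f) :
    Function.Surjective (imap f) := by
  intro x
  refine Ind.induction (P := fun x => ∃ y, imap f y = x) x ⟨0, map_zero _⟩ ?_ ?_
  · rintro x y ⟨a, rfl⟩ ⟨b, rfl⟩
    exact ⟨a + b, map_add _ _ _⟩
  · intro i n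
    obtain ⟨p, rfl⟩ := hf n
    exact ⟨sg i p, imap_sg f i p⟩

/-- The kernel of an induced map is induced. -/
noncomputable def kerEquiv (f : P →ₗ[R] N) :
    Ind (LinearMap.ker f) ≃ₗ[LaurentPolynomial R] LinearMap.ker (imap f) :=
  LinearEquiv.ofBijective
    ((imap (LinearMap.ker f).subtype).codRestrict (LinearMap.ker (imap f)) (fun x => by
      rw [LinearMap.mem_ker]
      refine Ind.ext fun i => ?_
      rw [co_imap, co_imap, map_zero]
      exact (co i x).2)) (by
    constructor
    · intro x y h
      refine Ind.ext fun i => Subtype.ext ?_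
      have h1 := congrArg (fun z : LinearMap.ker (imap f) => co i (z : Ind P)) h
      simp only [LinearMap.codRestrict_apply, co_imap] at h1
      exact h1
    · rintro ⟨x, hx⟩
      classical
      let g : P → LinearMap.ker f := fun p => if h : p ∈ LinearMap.ker f then ⟨p, h⟩ else 0
      have hg : g 0 = 0 := by
        simp only [g]
        rw [dif_pos (zero_mem _)]
        rfl
      let y : Ind (LinearMap.ker f) := Finsupp.mapRange g hg x
      refine ⟨y, Subtype.ext ?_⟩
      refine Ind.ext fun i => ?_
      rw [LinearMap.codRestrict_apply, co_imap]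
      have h1 : co i y = g (co i x) := Finsupp.mapRange_apply (f := g) (hf := hg) (g := x)
      have h2 : co i x ∈ LinearMap.ker f := by
        rw [LinearMap.mem_ker, ← co_imap]
        rw [LinearMap.mem_ker] at hx
        rw [hx, map_zero]
      rw [h1]
      simp only [g]
      rw [dif_pos h2]
      rfl)

theorem ind_finite (h : Module.Finite R N) : Module.Finite (LaurentPolynomial R) (Ind N) := by
  obtain ⟨S, hS⟩ := h.fg_top
  classical
  refine ⟨⟨S.image (sg 0), ?_⟩⟩
  rw [eq_top_iff]
  rintro x -
  induction x using Ind.induction with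
  | h0 => exact zero_mem _
  | hadd x y hx hy => exact add_mem hx hy
  | hsg i n => ?_
  rw [sg_eq_smul (R := R)]
  refine Submodule.smul_mem _ _ ?_
  have hn : n ∈ Submodule.span R (S : Set N) := by rw [hS]; trivial
  refine Submodule.span_induction (p := fun n _ => sg 0 n ∈ _) ?_ ?_ ?_ ?_ hn
  · intro n hn
    refine Submodule.subset_span ?_
    rw [Finset.coe_image]
    exact ⟨n, hn, rfl⟩
  · rw [sg_zero]; exact zero_mem _
  · intro a b _ _ ha hb
    rw [sg_add]; exact add_mem ha hb
  · intro r a _ ha
    rw [← smul_sg, ← C_smul]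
    exact Submodule.smul_mem _ _ ha

theorem ind_projective (h : Module.Projective R N) :
    Module.Projective (LaurentPolynomial R) (Ind N) := by
  refine Module.Projective.of_lifting_property'' fun f hf => ?_
  obtain ⟨g, hg⟩ := Module.projective_lifting_property (f.restrictScalars R) (sgHom R N) hf
  refine ⟨lift g, hom_ext fun n => ?_⟩
  rw [LinearMap.comp_apply, lift_sg_zero]
  exact LinearMap.congr_fun hg n

/-- Induction preserves finite resolutions. -/
theorem ind_res (n : ℕ) : ∀ (N : Type u) [AddCommGroup N] [Module R N], HasFPRes R n N →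
    HasFPRes (LaurentPolynomial R) n (Ind N) := by
  induction n with
  | zero =>
    intro N _ _ h
    exact ⟨ind_finite h.1, ind_projective h.2⟩
  | succ n ih =>
    intro N _ _ h
    obtain ⟨P, _, _, f, h1, h2, h3, h4⟩ := h
    exact ⟨Ind P, _, _, imap f, ind_finite h1, ind_projective h2, imap_surjective f h3,
      (ih _ h4).congr (kerEquiv f)⟩

end Exact

end Pool.Agent.NegK.H78
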